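import Pool.Agent.Helper58.QD.StM

/-!
# Project QD, module BOP: Bochner formula tested with a function
-/

set_option autoImplicit false

open Helper62.LH Helper62.DSH Helper58.QD MeasureTheory Set Filter Topology
open scoped ContDiff ENNReal

noncomputable section

namespace Pool.Agent.Helper62.QD

/-! ### continuity and smoothness -/

private theorem vol_cont {n : ℕ} {g : E n → Bl n} (hg : IsMet g) : Continuous (fun x => vol g x) := by
  have h := hg.smooth.continuous
  have h1 : Continuous (fun x => gm g x) := by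
    refine continuous_pi fun i => continuous_pi fun j => ?_
    show Continuous fun x => g x (ee i) (ee j)
    fun_prop
  exact (h1.matrix_det).sqrt

private theorem ipt_cont {n j : ℕ} {s t : E n → Tn n j} (hs : Continuous s)
    (ht : Continuous t) : Continuous (fun x => ipt (s x) (t x)) := by
  unfold ipt
  have hs' := continuous_pi_iff.1 hs
  have ht' := continuous_pi_iff.1 ht
  exact (continuous_finsetSum _ fun I _ => (hs' I).mul (ht' I)).div_const _

private theorem ct_cont {n j : ℕ} (a : Fin n) {s : E n → Tn n (j + 1)} (hs : Continuous s) :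
    Continuous (fun x => ct a (s x)) := by
  have hs' := continuous_pi_iff.1 hs
  exact continuous_pi fun K => hs' (Fin.cons a K)

private theorem rc_cont (hChr : StChr) {n : ℕ} {g : E n → Bl n} {Γ : E n → Bm n}
    {F : Fin n → E n → E n} (hg : IsMet g) (hΓ : IsChr g Γ) (hF : ∀ a, ContDiff ℝ ∞ (F a))
    (a b c l : Fin n) : Continuous (fun x => Rc g Γ F x a b c l) := by
  have hgc := hg.smooth.continuous
  have hΓs := (hChr n g Γ hg hΓ).1
  have hΓc := hΓs.continuous
  have hΓd := hΓs.continuous_fderiv (by simp)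
  have hFc : ∀ a, Continuous (F a) := fun a => (hF a).continuous
  have ha := hFc a
  have hb := hFc b
  have hc := hFc c
  have hl := hFc l
  have h2 : Continuous (fun x => Rm Γ x (F a x) (F b x) (F c x)) := by
    unfold Rm
    refine ((Continuous.add (Continuous.sub ?_ ?_) ?_).sub ?_)
    · exact ((hΓd.clm_apply ha).clm_apply hb).clm_apply hc
    · exact ((hΓd.clm_apply hb).clm_apply ha).clm_apply hc
    · exact (hΓc.clm_apply ha).clm_apply ((hΓc.clm_apply hb).clm_apply hc)
    · exact (hΓc.clm_apply hb).clm_apply ((hΓc.clm_apply ha).clm_apply hc)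
  exact (hgc.clm_apply h2).clm_apply hl

private theorem wz_cont (hChr : StChr) {n m : ℕ} {g : E n → Bl n} {Γ : E n → Bm n}
    {F : Fin n → E n → E n} (hg : IsMet g) (hΓ : IsChr g Γ) (hF : ∀ a, ContDiff ℝ ∞ (F a))
    {v : E n → Tn n (m + 1)} (hv : Continuous v) :
    Continuous (fun x => Wz (Rc g Γ F x) (v x)) := by
  unfold Wz
  refine continuous_finsetSum _ fun a _ => continuous_finsetSum _ fun b _ => ?_
  refine ipt_cont (ct_cont a hv) (ct_cont b ?_)
  unfold rho
  refine continuous_pi fun I => continuous_finsetSum _ fun k _ => continuous_finsetSum _ fun l _ => ?_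
  exact (rc_cont hChr hg hΓ hF a b (I k) l).mul (continuous_pi_iff.1 hv _)

/-! ### algebra -/

private theorem ipt_add {n j : ℕ} (s t t' : Tn n j) : ipt s (t + t') = ipt s t + ipt s t' := by
  unfold ipt
  rw [← add_div, ← Finset.sum_add_distrib]
  congr 1
  exact Finset.sum_congr rfl fun I _ => by rw [Pi.add_apply]; ring

private theorem ipt_smul {n j : ℕ} (c : ℝ) (s t : Tn n j) : ipt s (c • t) = c * ipt s t := by
  unfold ipt
  rw [← mul_div_assoc, Finset.mul_sum]
  congr 1
  exact Finset.sum_congr rfl fun I _ => by rw [Pi.smul_apply, smul_eq_mul]; ring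

private theorem ipt_zero_right {n j : ℕ} (t : Tn n j) : ipt t 0 = 0 := by
  unfold ipt
  simp

private theorem q2_diff {n j : ℕ} (s t : Tn n j) : q2 (s + t) - q2 (s - t) = 4 * ipt s t := by
  unfold q2 ipt
  rw [← sub_div, ← Finset.sum_sub_distrib, ← mul_div_assoc, Finset.mul_sum]
  congr 1
  exact Finset.sum_congr rfl fun I _ => by rw [Pi.add_apply, Pi.sub_apply]; ring

private theorem q2_zero {n j : ℕ} : q2 (0 : Tn n j) = 0 := by
  unfold q2 ipt
  simp

private theorem wz_smul {n m : ℕ} (R : Fin n → Fin n → Fin n → Fin n → ℝ) (c : ℝ)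
    (t : Tn n (m + 1)) : Wz R (c • t) = c ^ 2 * Wz R t := by
  unfold Wz
  rw [Finset.mul_sum]
  refine Finset.sum_congr rfl fun a _ => ?_
  rw [Finset.mul_sum]
  refine Finset.sum_congr rfl fun b _ => ?_
  unfold ipt ct rho
  rw [← mul_div_assoc, Finset.mul_sum]
  congr 1
  refine Finset.sum_congr rfl fun I _ => ?_
  simp only [Pi.smul_apply, smul_eq_mul, Finset.mul_sum]
  refine Finset.sum_congr rfl fun k _ => Finset.sum_congr rfl fun l _ => ?_
  ring

private theorem wd_add {n j : ℕ} (p q : Fin n → Tn n j) :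
    wd (fun c => p c + q c) = wd p + wd q := by
  funext J
  unfold wd
  rw [Pi.add_apply, ← Finset.sum_add_distrib]
  refine Finset.sum_congr rfl fun c _ => ?_
  simp only [Pi.add_apply]
  ring

private theorem wd_sub {n j : ℕ} (p q : Fin n → Tn n j) :
    wd (fun c => p c - q c) = wd p - wd q := by
  funext J
  unfold wd
  rw [Pi.sub_apply, ← Finset.sum_sub_distrib]
  refine Finset.sum_congr rfl fun c _ => ?_
  simp only [Pi.sub_apply]
  ring

private theorem wd_zero {n j : ℕ} : wd (fun _ : Fin n => (0 : Tn n j)) = 0 := by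
  funext J
  unfold wd
  simp

/-! ### integrability -/

private theorem integ {n : ℕ} {h : E n → ℝ} (hc : Continuous h) {K : Set (E n)} (hK : IsCompact K)
    (h0 : ∀ x, x ∉ K → h x = 0) : Integrable h :=
  hc.integrable_of_hasCompactSupport (HasCompactSupport.intro hK fun x hx => h0 x hx)

private theorem int_both (hChr : StChr) (hDer : TDer) {n m : ℕ} {g : E n → Bl n} {Γ : E n → Bm n}
    {F : Fin n → E n → E n} {G : E n → Fin n → Fin n → Fin n → ℝ} (hg : IsMet g) (hΓ : IsChr g Γ)
    (hFr : Frm g Γ F G) {v : E n → Tn n (m + 1)} (hv : ContDiff ℝ ∞ v)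
    (hs : HasCompactSupport v) :
    Integrable (fun x => (NF F G v x + Wz (Rc g Γ F x) (v x)) * vol g x) ∧
    Integrable (fun x => (q2 (dF F G v x) + q2 (dlF F G (fun _ => 0) v x)) * vol g x) := by
  have hder := hDer n (m + 1) g Γ F G hFr
  have hder0 := hDer n m g Γ F G hFr
  have hcv : ∀ a, ContDiff ℝ ∞ (fun x => cv F G v x a) := (hder.1 v hv).1
  have hdF : ContDiff ℝ ∞ (dF F G v) := (hder.1 v hv).2
  have hdl : ContDiff ℝ ∞ (dlF F G (fun _ => 0) v) := hder0.2.1 (fun _ => 0) v contDiff_const hv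
  have hsup : ∀ x, x ∉ tsupport v → v x = 0 ∧ (∀ a, cv F G v x a = 0) ∧ dF F G v x = 0 :=
    fun x hx => hder.2.2.2.2.2.2.2 v x hx
  have hdl0 : ∀ x, x ∉ tsupport v → dlF F G (fun _ => 0) v x = 0 := by
    intro x hx
    obtain ⟨h1, h2, _⟩ := hsup x hx
    unfold dlF
    refine Finset.sum_eq_zero fun a _ => ?_
    have e : ct a (0 : Tn n (m + 1)) = 0 := rfl
    rw [h2 a, h1, e, smul_zero, sub_zero]
  have hvc := vol_cont hg
  constructor
  · refine integ (Continuous.mul (Continuous.add ?_ ?_) hvc) hs fun x hx => ?_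
    · exact continuous_finsetSum _ fun a _ => ipt_cont (hcv a).continuous (hcv a).continuous
    · exact wz_cont hChr hg hΓ hFr.smF hv.continuous
    · show (NF F G v x + Wz (Rc g Γ F x) (v x)) * vol g x = 0
      obtain ⟨h1, h2, _⟩ := hsup x hx
      have h3 : NF F G v x = 0 := by
        unfold NF
        refine Finset.sum_eq_zero fun a _ => ?_
        rw [h2 a, q2_zero]
      have h4 : Wz (Rc g Γ F x) (v x) = 0 := by
        have e := wz_smul (Rc g Γ F x) 0 (v x)
        rw [zero_smul] at e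
        rw [h1, e]
        ring
      rw [h3, h4, add_zero, zero_mul]
  · refine integ (Continuous.mul (Continuous.add ?_ ?_) hvc) hs fun x hx => ?_
    · exact ipt_cont hdF.continuous hdF.continuous
    · exact ipt_cont hdl.continuous hdl.continuous
    · show (q2 (dF F G v x) + q2 (dlF F G (fun _ => 0) v x)) * vol g x = 0
      obtain ⟨_, _, h3⟩ := hsup x hx
      rw [h3, hdl0 x hx, q2_zero, q2_zero, add_zero, zero_mul]

/-! ### the pointwise identities -/

/-- the pointwise identities, with the two possible positions of the point -/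
private theorem point (hLbz : TLbz) {n m : ℕ} {g : E n → Bl n} {Γ : E n → Bm n}
    {F : Fin n → E n → E n} {G : E n → Fin n → Fin n → Fin n → ℝ}
    (hFr : Frm g Γ F G) {u : E n → Tn n (m + 1)} (hu : ContDiff ℝ ∞ u) {φ ξ : E n → ℝ}
    (hφ : ContDiff ℝ ∞ φ) (hξ : ContDiff ℝ ∞ ξ) (x : E n)
    (hx : (ξ x = 1 ∧ fderiv ℝ ξ x = 0) ∨ (φ x = 0 ∧ fderiv ℝ φ x = 0)) :
    (NF F G (fun y => (ξ y + φ y) • u y) x + Wz (Rc g Γ F x) ((ξ x + φ x) • u x)) -
      (NF F G (fun y => (ξ y - φ y) • u y) x + Wz (Rc g Γ F x) ((ξ x - φ x) • u x)) =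
      4 * (φ x * NF F G u x + (∑ a, fderiv ℝ φ x (F a x) * ipt (cv F G u x a) (u x)) +
        φ x * Wz (Rc g Γ F x) (u x)) ∧
    (q2 (dF F G (fun y => (ξ y + φ y) • u y) x) +
        q2 (dlF F G (fun _ => 0) (fun y => (ξ y + φ y) • u y) x)) -
      (q2 (dF F G (fun y => (ξ y - φ y) • u y) x) +
        q2 (dlF F G (fun _ => 0) (fun y => (ξ y - φ y) • u y) x)) =
      4 * (ipt (dF F G u x) (dF F G (fun y => φ y • u y) x) +
        ipt (dlF F G (fun _ => 0) u x) (dlF F G (fun _ => 0) (fun y => φ y • u y) x)) := by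
  have hL := hLbz n (m + 1) g Γ F G hFr
  have hL0 := hLbz n m g Γ F G hFr
  have hp : ContDiff ℝ ∞ (fun y => ξ y + φ y) := hξ.add hφ
  have hm : ContDiff ℝ ∞ (fun y => ξ y - φ y) := hξ.sub hφ
  have hdξ : DifferentiableAt ℝ ξ x := (hξ.differentiable (by simp)) x
  have hdφ : DifferentiableAt ℝ φ x := (hφ.differentiable (by simp)) x
  have dp : ∀ w, fderiv ℝ (fun y => ξ y + φ y) x w = fderiv ℝ ξ x w + fderiv ℝ φ x w := by
    intro w
    rw [fderiv_fun_add hdξ hdφ]
    rfl
  have dm : ∀ w, fderiv ℝ (fun y => ξ y - φ y) x w = fderiv ℝ ξ x w - fderiv ℝ φ x w := by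
    intro w
    rw [fderiv_fun_sub hdξ hdφ]
    rfl
  -- covariant derivatives
  obtain ⟨A, hA⟩ : ∃ A : Fin n → Tn n (m + 1),
    A = fun a => ξ x • cv F G u x a + fderiv ℝ ξ x (F a x) • u x := ⟨_, rfl⟩
  obtain ⟨B, hB⟩ : ∃ B : Fin n → Tn n (m + 1),
    B = fun a => φ x • cv F G u x a + fderiv ℝ φ x (F a x) • u x := ⟨_, rfl⟩
  have cp : ∀ a, cv F G (fun y => (ξ y + φ y) • u y) x a = A a + B a := by
    intro a
    rw [(hL.2.1 _ u hp hu x).1 a, dp, hA, hB]
    funext I
    simp only [Pi.add_apply, Pi.smul_apply, smul_eq_mul]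
    ring
  have cm : ∀ a, cv F G (fun y => (ξ y - φ y) • u y) x a = A a - B a := by
    intro a
    rw [(hL.2.1 _ u hm hu x).1 a, dm, hA, hB]
    funext I
    simp only [Pi.add_apply, Pi.sub_apply, Pi.smul_apply, smul_eq_mul]
    ring
  have hBd : dF F G (fun y => φ y • u y) x = wd B := by
    unfold dF
    congr 1
    funext a
    rw [(hL.2.1 φ u hφ hu x).1 a, hB]
  obtain ⟨A', hA'⟩ : ∃ A' : Tn n m, A' = ξ x • dlF F G (fun _ => 0) u x +
    ∑ a, fderiv ℝ ξ x (F a x) • ct a (u x) := ⟨_, rfl⟩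
  obtain ⟨B', hB'⟩ : ∃ B' : Tn n m, B' = dlF F G (fun _ => 0) (fun y => φ y • u y) x := ⟨_, rfl⟩
  have hB'' := hL0.2.2.1 (fun _ => 0) φ u hφ hu x
  have lp : dlF F G (fun _ => 0) (fun y => (ξ y + φ y) • u y) x = A' + B' := by
    rw [hL0.2.2.1 (fun _ => 0) _ u hp hu x, hA', hB', hB'']
    simp only [dp, add_smul, Finset.sum_add_distrib]
    abel
  have lm : dlF F G (fun _ => 0) (fun y => (ξ y - φ y) • u y) x = A' - B' := by
    rw [hL0.2.2.1 (fun _ => 0) _ u hm hu x, hA', hB', hB'']
    simp only [dm, sub_smul, Finset.sum_sub_distrib]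
    abel
  have ddp : dF F G (fun y => (ξ y + φ y) • u y) x = wd A + wd B := by
    rw [← wd_add]
    unfold dF
    congr 1
    funext a
    exact cp a
  have ddm : dF F G (fun y => (ξ y - φ y) • u y) x = wd A - wd B := by
    rw [← wd_sub]
    unfold dF
    congr 1
    funext a
    exact cm a
  have hNF : NF F G (fun y => (ξ y + φ y) • u y) x - NF F G (fun y => (ξ y - φ y) • u y) x =
      4 * ∑ a, ipt (A a) (B a) := by
    unfold NF
    rw [← Finset.sum_sub_distrib, Finset.mul_sum]
    refine Finset.sum_congr rfl fun a _ => ?_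
    rw [cp, cm, q2_diff]
  have hWz : Wz (Rc g Γ F x) ((ξ x + φ x) • u x) - Wz (Rc g Γ F x) ((ξ x - φ x) • u x) =
      4 * (ξ x * φ x * Wz (Rc g Γ F x) (u x)) := by
    rw [wz_smul, wz_smul]
    ring
  rw [ddp, ddm, lp, lm, ← hB', hBd]
  have r1 : (q2 (wd A + wd B) + q2 (A' + B')) - (q2 (wd A - wd B) + q2 (A' - B')) =
      4 * (ipt (wd A) (wd B) + ipt A' B') := by
    have e1 := q2_diff (wd A) (wd B)
    have e2 := q2_diff A' B'
    linarith
  rw [r1]
  rcases hx with ⟨h1, h2⟩ | ⟨h1, h2⟩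
  · have eA : A = cv F G u x := by
      rw [hA]
      funext a
      rw [h1, h2, one_smul]
      show cv F G u x a + (0 : ℝ) • u x = _
      rw [zero_smul, add_zero]
    have eA' : A' = dlF F G (fun _ => 0) u x := by
      rw [hA', h1, h2, one_smul]
      have e : ∑ a, (0 : E n →L[ℝ] ℝ) (F a x) • ct a (u x) = 0 :=
        Finset.sum_eq_zero fun a _ => by
          show (0 : ℝ) • ct a (u x) = 0
          rw [zero_smul]
      rw [e, add_zero]
    constructor
    · have e1 : ∑ a, ipt (A a) (B a) = φ x * NF F G u x +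
          ∑ a, fderiv ℝ φ x (F a x) * ipt (cv F G u x a) (u x) := by
        unfold NF
        rw [Finset.mul_sum, ← Finset.sum_add_distrib]
        refine Finset.sum_congr rfl fun a _ => ?_
        rw [eA, hB]
        show ipt (cv F G u x a) (φ x • cv F G u x a + fderiv ℝ φ x (F a x) • u x) = _
        rw [ipt_add, ipt_smul, ipt_smul]
        rfl
      rw [e1] at hNF
      rw [h1] at hWz ⊢
      linarith
    · rw [eA']
      have e2 : wd A = dF F G u x := by rw [eA]; rfl
      rw [e2]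
  · have eB : B = fun _ => 0 := by
      rw [hB]
      funext a
      rw [h1, h2, zero_smul]
      show 0 + (0 : ℝ) • u x = _
      rw [zero_smul, add_zero]
    have eB' : B' = 0 := by
      rw [hB', hB'', h1, h2, zero_smul, zero_add]
      exact Finset.sum_eq_zero fun a _ => by
        show (0 : ℝ) • ct a (u x) = 0
        rw [zero_smul]
    constructor
    · have e1 : ∑ a, ipt (A a) (B a) = 0 := by
        refine Finset.sum_eq_zero fun a _ => ?_
        rw [eB, ipt_zero_right]
      have e2 : ∑ a, fderiv ℝ φ x (F a x) * ipt (cv F G u x a) (u x) = 0 := by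
        refine Finset.sum_eq_zero fun a _ => ?_
        rw [h2]
        show (0 : ℝ) * _ = 0
        rw [zero_mul]
      rw [e1] at hNF
      rw [e2]
      rw [h1] at hWz ⊢
      linarith
    · rw [eB, eB', wd_zero, ipt_zero_right, ipt_zero_right, ipt_zero_right, ipt_zero_right]

theorem hBop (hChr : StChr) (hDer : TDer) (hLbz : TLbz) (hBol : SBol) : SBop := by
  intro n m g Γ F G hg hΓ hFr u hu hAl φ hφ
  obtain ⟨hφs, hφc⟩ := hφ
  -- the cut-off function
  obtain ⟨R, hR⟩ : ∃ R : ℝ, tsupport φ ⊆ Metric.closedBall 0 R :=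
    hφc.isCompact.isBounded.subset_closedBall 0
  obtain ⟨R', hR'⟩ : ∃ R' : ℝ, R' = max R 0 + 1 := ⟨_, rfl⟩
  have hR0 : 0 < R' := by
    rw [hR']
    have := le_max_right R 0
    linarith
  have hRR : R < R' := by
    rw [hR']
    have := le_max_left R 0
    linarith
  obtain ⟨ξ, hξs, hξc, hξ⟩ : ∃ ξ : E n → ℝ, ContDiff ℝ ∞ ξ ∧ HasCompactSupport ξ ∧
      ∀ x, (ξ x = 1 ∧ fderiv ℝ ξ x = 0) ∨ (φ x = 0 ∧ fderiv ℝ φ x = 0) := by
    let b : ContDiffBump (0 : E n) := ⟨R', R' + 1, hR0, by linarith⟩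
    refine ⟨b, b.contDiff, b.hasCompactSupport, fun x => ?_⟩
    by_cases hx : x ∈ Metric.ball (0 : E n) R'
    · left
      have h1 : (b : E n → ℝ) =ᶠ[𝓝 x] 1 := b.eventuallyEq_one_of_mem_ball hx
      refine ⟨h1.eq_of_nhds, ?_⟩
      rw [h1.fderiv_eq]
      exact fderiv_const_apply (1 : ℝ)
    · right
      have hx' : x ∉ tsupport φ := by
        intro h
        have h2 := hR h
        rw [Metric.mem_closedBall] at h2
        exact hx (Metric.mem_ball.2 (lt_of_le_of_lt h2 hRR))
      have h1 : φ =ᶠ[𝓝 x] 0 := notMem_tsupport_iff_eventuallyEq.1 hx'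
      refine ⟨h1.eq_of_nhds, ?_⟩
      rw [h1.fderiv_eq]
      exact fderiv_const_apply (0 : ℝ)
  -- the two forms
  have sm : ∀ θ : E n → ℝ, ContDiff ℝ ∞ θ → HasCompactSupport θ →
      ContDiff ℝ ∞ (fun y => θ y • u y) ∧ Al (fun y => θ y • u y) ∧
        HasCompactSupport (fun y => θ y • u y) := by
    intro θ hθ hθc
    refine ⟨hθ.smul hu, ?_, hθc.smul_right⟩
    intro x I σ
    show θ x * u x (I ∘ σ) = ((Equiv.Perm.sign σ : ℤ) : ℝ) * (θ x * u x I)
    rw [hAl x I σ]
    ring
  obtain ⟨vp1, vp2, vp3⟩ := sm (fun y => ξ y + φ y) (hξs.add hφs) (hξc.add hφc)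
  obtain ⟨vm1, vm2, vm3⟩ := sm (fun y => ξ y - φ y) (hξs.sub hφs) (by
    refine HasCompactSupport.intro (hξc.isCompact.union hφc.isCompact) fun x hx => ?_
    have h1 : ξ x = 0 := image_eq_zero_of_notMem_tsupport fun h => hx (Or.inl h)
    have h2 : φ x = 0 := image_eq_zero_of_notMem_tsupport fun h => hx (Or.inr h)
    show ξ x - φ x = 0
    rw [h1, h2, sub_zero])
  have ep := hBol n m g Γ F G hg hΓ hFr _ vp1 vp2 vp3
  have em := hBol n m g Γ F G hg hΓ hFr _ vm1 vm2 vm3
  obtain ⟨ip1, ip2⟩ := int_both hChr hDer hg hΓ hFr vp1 vp3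
  obtain ⟨im1, im2⟩ := int_both hChr hDer hg hΓ hFr vm1 vm3
  have e1 := integral_sub ip1 im1
  have e2 := integral_sub ip2 im2
  rw [ep, em, ← e2] at e1
  have hpt := fun x => point hLbz hFr hu hφs hξs x (hξ x)
  have f1 : ∫ x, ((NF F G (fun y => (ξ y + φ y) • u y) x +
      Wz (Rc g Γ F x) ((ξ x + φ x) • u x)) * vol g x -
      (NF F G (fun y => (ξ y - φ y) • u y) x + Wz (Rc g Γ F x) ((ξ x - φ x) • u x)) * vol g x) =
      4 * ∫ x, (φ x * NF F G u x + (∑ a, fderiv ℝ φ x (F a x) * ipt (cv F G u x a) (u x)) +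
        φ x * Wz (Rc g Γ F x) (u x)) * vol g x := by
    rw [← integral_const_mul]
    refine integral_congr_ae (Eventually.of_forall fun x => ?_)
    beta_reduce
    rw [← sub_mul, (hpt x).1]
    ring
  have f2 : ∫ x, ((q2 (dF F G (fun y => (ξ y + φ y) • u y) x) +
        q2 (dlF F G (fun _ => 0) (fun y => (ξ y + φ y) • u y) x)) * vol g x -
      (q2 (dF F G (fun y => (ξ y - φ y) • u y) x) +
        q2 (dlF F G (fun _ => 0) (fun y => (ξ y - φ y) • u y) x)) * vol g x) =
      4 * ∫ x, (ipt (dF F G u x) (dF F G (fun y => φ y • u y) x) +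
        ipt (dlF F G (fun _ => 0) u x) (dlF F G (fun _ => 0) (fun y => φ y • u y) x)) * vol g x := by
    rw [← integral_const_mul]
    refine integral_congr_ae (Eventually.of_forall fun x => ?_)
    beta_reduce
    rw [← sub_mul, (hpt x).2]
    ring
  rw [f1, f2] at e1
  linarith

end Pool.Agent.Helper62.QD
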