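import Pool.Agent.Helper58.QD.StE

/-!
# Project QD, module KEG: main estimate
-/

set_option autoImplicit false

open Helper62.LH Helper62.DSH Helper58.QD MeasureTheory Set Filter Topology
open scoped ContDiff ENNReal

noncomputable section

namespace Pool.Agent.Helper62.QD

/-! ### integrals over annuli -/

private theorem kq_cont {n j : ℕ} {s : E n → Tn n j} (hs : Continuous s) :
    Continuous (fun x => q2 (s x)) := by
  unfold q2 ipt
  have hs' := continuous_pi_iff.1 hs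
  exact (continuous_finsetSum _ fun I _ => (hs' I).mul (hs' I)).div_const _

private theorem kq_nonneg {n j : ℕ} (t : Tn n j) : 0 ≤ q2 t := by
  unfold q2 ipt
  exact div_nonneg (Finset.sum_nonneg fun I _ => mul_self_nonneg _) (by positivity)

private theorem an_mono {n j : ℕ} {g : E n → Bl n} (hv : Continuous (vol g)) (hv0 : ∀ x, 0 < vol g x)
    {β : E n → ℝ} {s t s' t' : ℝ} (hc : IsCompact (An β s' t')) (_ : IsCompact (An β s t)) (h1 : s' ≤ s) (h2 : t ≤ t')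
    {u : E n → Tn n j} (hu : Continuous u) :
    ∫ x in An β s t, q2 (u x) * vol g x ≤ ∫ x in An β s' t', q2 (u x) * vol g x := by
  have hf : Continuous fun x => q2 (u x) * vol g x := (kq_cont hu).mul hv
  have hsub : An β s t ⊆ An β s' t' := fun x hx => ⟨h1.trans hx.1, hx.2.trans h2⟩
  refine setIntegral_mono_set (hf.continuousOn.integrableOn_compact hc) ?_ hsub.eventuallyLE
  exact Eventually.of_forall fun x => mul_nonneg (kq_nonneg _) (hv0 x).le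

/-! ### the forms -/

private theorem qf_smul {M : ℕ} (S : Fin M → Fin M → ℝ) (r : ℝ) (c : Fin M → ℝ) :
    qf S (fun i => r * c i) = r ^ 2 * qf S c := by
  unfold qf
  rw [Finset.mul_sum]
  refine Finset.sum_congr rfl fun i _ => ?_
  rw [Finset.mul_sum]
  exact Finset.sum_congr rfl fun j _ => by ring

private theorem qs_mono {n m M : ℕ} {g : E n → Bl n} {F : Fin n → E n → E n}
    {G : E n → Fin n → Fin n → Fin n → ℝ} (hv : Continuous (vol g)) (hv0 : ∀ x, 0 < vol g x) {β : E n → ℝ}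
    (hcp : ∀ s t, IsCompact (An β s t)) {P : Fin M → E n → Tn n (m + 1)} {s t s' t' : ℝ}
    {S S' : Fin M → Fin M → ℝ} (hS : QS g F G β P s t S) (hS' : QS g F G β P s' t' S') (h1 : s' ≤ s) (h2 : t ≤ t')
    (c : Fin M → ℝ) : qf S c ≤ qf S' c := by
  refine le_of_forall_pos_le_add fun κ hκ => ?_
  obtain ⟨u, hu, hi⟩ := hS'.app c κ hκ
  exact (hS.low c u hu).trans ((an_mono hv hv0 (hcp _ _) (hcp _ _) h1 h2 hu.1.continuous).trans hi)

/-- lower bound of the form from the lower bound of all primitives -/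
private theorem qs_low {n m M : ℕ} {g : E n → Bl n} {F : Fin n → E n → E n}
    {G : E n → Fin n → Fin n → Fin n → ℝ} (hv : Continuous (vol g)) (hv0 : ∀ x, 0 < vol g x) {β : E n → ℝ}
    (hcp : ∀ s t, IsCompact (An β s t)) {P : Fin M → E n → Tn n (m + 1)} {s t R Λ : ℝ}
    {S : Fin M → Fin M → ℝ} (hS : QS g F G β P s t S) (h1 : s ≤ R / 2) (h2 : R ≤ t)
    (hL : ∀ c : Fin M → ℝ, ∑ i, c i ^ 2 = 1 → ∀ u : E n → Tn n m, Prm F G (fun x => ∑ i, c i • P i x) u →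
      Λ * R ^ 2 ≤ ∫ x in An β (R / 2) R, q2 (u x) * vol g x) (c : Fin M → ℝ) :
    Λ * R ^ 2 * ∑ i, c i ^ 2 ≤ qf S c := by
  have hs0 : 0 ≤ ∑ i, c i ^ 2 := Finset.sum_nonneg fun i _ => sq_nonneg _
  rcases hs0.eq_or_lt with h0 | hpos
  · rw [← h0, mul_zero]
    exact hS.nonneg c
  · obtain ⟨r, hr⟩ : ∃ r : ℝ, r = √(∑ i, c i ^ 2) := ⟨_, rfl⟩
    have hr0 : 0 < r := by rw [hr]; exact Real.sqrt_pos.2 hpos
    have hr2 : r ^ 2 = ∑ i, c i ^ 2 := by rw [hr]; exact Real.sq_sqrt hs0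
    have hu1 : ∑ i, (r⁻¹ * c i) ^ 2 = 1 := by
      have e : ∀ i, (r⁻¹ * c i) ^ 2 = (r ^ 2)⁻¹ * c i ^ 2 := fun i => by rw [mul_pow, inv_pow]
      simp_rw [e]
      rw [← Finset.mul_sum, ← hr2]
      exact inv_mul_cancel₀ (by positivity)
    have key : Λ * R ^ 2 ≤ qf S (fun i => r⁻¹ * c i) := by
      refine le_of_forall_pos_le_add fun κ hκ => ?_
      obtain ⟨u, hu, hi⟩ := hS.app (fun i => r⁻¹ * c i) κ hκ
      exact (hL _ hu1 u hu).trans ((an_mono hv hv0 (hcp _ _) (hcp _ _) h1 h2 hu.1.continuous).trans hi)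
    have e2 : qf S c = r ^ 2 * qf S (fun i => r⁻¹ * c i) := by
      rw [← qf_smul]
      congr 1
      funext i
      rw [mul_inv_cancel_left₀ hr0.ne']
    rw [e2, ← hr2, mul_comm]
    exact mul_le_mul_of_nonneg_left key (sq_nonneg r)

theorem hKeg (hDlv : StDlv) (hGrw : SGrw) (hQsx : SQsx) (hLbd : SLbd) (hPig : SPig) (hOeq : SOeq)
    (hKeb : SKeb) : SKeg := by
  intro n m g Γ F G hg hΓ hFr hCp hSec p b β κ₀ r0 hB hβ A hA hW1 hW2
  obtain ⟨hvs, hv0, _⟩ := hDlv n g Γ hg hΓ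
  have hv := hvs.continuous
  obtain ⟨_, hcp, _⟩ := hGrw n g Γ hg p b β κ₀ r0 hB hβ
  obtain ⟨C, hC1, hO⟩ := hOeq n m g Γ F G hg hΓ hFr hCp hSec p b β κ₀ r0 hB hβ A hA hW1 hW2
  obtain ⟨M0, R0, hM0, hR0, hK⟩ := hKeb n m g Γ F G hg hΓ hFr hCp hSec p b β κ₀ r0 hB hβ A hA hW1 C hC1
  refine ⟨M0, hM0, fun M hM P hP K hKc δ hδ => ?_⟩
  by_contra hcon
  have hc : ∀ c : Fin M → ℝ, ∑ i, c i ^ 2 = 1 → δ ≤ ∫ x in K, q2 (∑ i, c i • P i x) * vol g x := by
    intro c hc1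
    by_contra h
    exact hcon ⟨c, hc1, (not_le.1 h).le⟩
  obtain ⟨T1, hT1, hO1⟩ := hO M P hP K δ hKc hδ hc
  obtain ⟨Λ, hΛ⟩ : ∃ Λ : ℝ, Λ = ∑ i, ∫ x, q2 (P i x) * vol g x := ⟨_, rfl⟩
  have hΛ0 : 0 ≤ Λ := by
    rw [hΛ]
    exact Finset.sum_nonneg fun i _ => integral_nonneg fun x => mul_nonneg (kq_nonneg _) (hv0 x).le
  obtain ⟨R1, hR1, hL⟩ := hLbd n (m + 1) g Γ F G hg hΓ hFr p b β κ₀ r0 hB hβ M P hP K δ hKc hδ hc (1 + Λ)
  choose S hS using fun s t => hQsx n (m + 1) g Γ F G hg hΓ hFr p b β κ₀ r0 hB hβ M P hP s t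
  obtain ⟨i0, hi0⟩ := pow_unbounded_of_one_lt (max T1 (max R1 R0)) (by norm_num : (1 : ℝ) < 4)
  have hbig : ∀ k, i0 ≤ k → T1 ≤ (4 : ℝ) ^ k ∧ R1 ≤ (4 : ℝ) ^ k ∧ R0 ≤ (4 : ℝ) ^ k := by
    intro k hk
    have h := hi0.le.trans (pow_le_pow_right₀ (by norm_num : (1 : ℝ) ≤ 4) hk)
    exact ⟨(le_max_left _ _).trans h, ((le_max_left _ _).trans (le_max_right _ _)).trans h,
      ((le_max_right _ _).trans (le_max_right _ _)).trans h⟩
  have hpos : ∀ k : ℕ, (0 : ℝ) < 4 ^ k := fun k => by positivity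
  have hone : ∀ k : ℕ, (1 : ℝ) ≤ 4 ^ k := fun k => one_le_pow₀ (by norm_num)
  have e1 : ∀ k : ℕ, (4 : ℝ) ^ (k + 1) = 4 * 4 ^ k := fun k => by ring
  have e2 : ∀ k : ℕ, (4 : ℝ) ^ (k + 2) = 16 * 4 ^ k := fun k => by ring
  have e3 : ∀ k : ℕ, (4 : ℝ) ^ (k + 3) = 64 * 4 ^ k := fun k => by ring
  have e4 : ∀ k : ℕ, (4 : ℝ) ^ (k + 4) = 256 * 4 ^ k := fun k => by ring
  have hlow : ∀ k, i0 ≤ k → ∀ s t : ℝ, s ≤ 4 ^ k / 2 → (4 : ℝ) ^ k ≤ t → ∀ c : Fin M → ℝ,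
      (1 + Λ) * ((4 : ℝ) ^ k) ^ 2 * ∑ i, c i ^ 2 ≤ qf (S s t) c := by
    intro k hk s t h1 h2 c
    exact qs_low hv hv0 hcp (hS s t) h1 h2 (fun c' hc' u hu => hL _ (hbig k hk).2.1 c' hc' u hu) c
  obtain ⟨i, hi, _, e, he, hsum⟩ := hPig M C (hM0.trans hM) hC1
    (fun i => S (4 ^ i) (4 ^ (i + 2))) (fun i => S (4 ^ i) (4 ^ (i + 3))) (fun i => S (4 ^ i) (4 ^ (i + 4))) i0
    (fun i => ⟨(hS _ _).sym, (hS _ _).sym, (hS _ _).sym⟩)
    (fun i c => ⟨(hS _ _).nonneg c, (hS _ _).nonneg c, (hS _ _).nonneg c⟩)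
    (by
      intro i hi c
      have h := hlow (i + 2) (by omega) (4 ^ i) (4 ^ (i + 2)) (by rw [e2]; linarith [hpos i]) le_rfl c
      refine le_trans ?_ h
      have h0 : 0 ≤ ∑ k, c k ^ 2 := Finset.sum_nonneg fun k _ => sq_nonneg _
      have h1 : 1 ≤ (1 + Λ) * ((4 : ℝ) ^ (i + 2)) ^ 2 :=
        one_le_mul_of_one_le_of_one_le (by linarith) (one_le_pow₀ (hone _))
      exact le_mul_of_one_le_left h0 h1)
    (by
      intro i hi c
      have h := hO1 (4 ^ (i + 2)) (4 ^ i) (hbig (i + 2) (by omega)).1 (by rw [e2]; linarith [hpos i])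
        (S (4 ^ i) (4 ^ (i + 2))) (S (4 ^ i) (4 ^ (i + 3))) (hS _ _)
        (by
          have e : 4 * (4 : ℝ) ^ (i + 2) = 4 ^ (i + 3) := by ring
          rw [e]
          exact hS _ _) c
      exact h)
    (by
      intro i hi c
      have h := hO1 (4 ^ (i + 3)) (4 ^ i) (hbig (i + 3) (by omega)).1 (by rw [e3]; linarith [hpos i])
        (S (4 ^ i) (4 ^ (i + 3))) (S (4 ^ i) (4 ^ (i + 4))) (hS _ _)
        (by
          have e : 4 * (4 : ℝ) ^ (i + 3) = 4 ^ (i + 4) := by ring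
          rw [e]
          exact hS _ _) c
      exact h)
    (by
      intro i hi c
      refine qs_mono hv hv0 hcp (hS _ _) (hS _ _) ?_ ?_ c
      · rw [e1]; linarith [hpos i]
      · have e : (4 : ℝ) ^ (i + 1 + 2) = 64 * 4 ^ i := by ring
        rw [e, e4]
        linarith [hpos i])
    i0
  have hfin := hK M hM (4 ^ (i + 1)) (hbig (i + 1) (by omega)).2.2 P hP (S (4 ^ (i + 1)) (4 ^ (i + 1 + 2)))
    (S (4 ^ i) (4 ^ (i + 4)))
    (by
      have e' : 16 * (4 : ℝ) ^ (i + 1) = 4 ^ (i + 1 + 2) := by ring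
      rw [e']
      exact hS _ _)
    (by
      have e' : (4 : ℝ) ^ (i + 1) / 4 = 4 ^ i := by rw [e1]; ring
      have e'' : 64 * (4 : ℝ) ^ (i + 1) = 4 ^ (i + 4) := by ring
      rw [e', e'']
      exact hS _ _)
    (by
      intro c
      rw [← hΛ]
      have h := hlow (i + 1) (by omega) (4 ^ i) (4 ^ (i + 4)) (by rw [e1]; linarith [hpos i])
        (by rw [e1, e4]; linarith [hpos i]) c
      refine le_trans ?_ h
      have h0 : 0 ≤ ∑ k, c k ^ 2 := Finset.sum_nonneg fun k _ => sq_nonneg _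
      have h1 : 0 ≤ ((4 : ℝ) ^ (i + 1)) ^ 2 := sq_nonneg _
      refine mul_le_mul_of_nonneg_right (mul_le_mul_of_nonneg_right ?_ h1) h0
      linarith)
    e he
  exact absurd hsum (not_le.2 hfin)

end Pool.Agent.Helper62.QD
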